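import Pool.Agent.H110.King.Main
import Pool.Agent.H110.King.Pseudo

/-! # Locally pseudocompact king spaces with a continuous weak selection are compact

The two questions of the problem have positive answers. -/

set_option autoImplicit false

namespace Pool.Agent.Results.MP_abcfaf_gt.LocPseudo

open Pool.Agent.H110.King Filter Topology Set

universe u

/-- A Hausdorff king space with a continuous weak selection which is locally compact, or which is
completely regular and locally pseudocompact, is compact. -/
theorem result (X : Type u) [TopologicalSpace X] [T2Space X]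
    (hX : LocallyCompactSpace X ∨ (CompletelyRegularSpace X ∧ IsLocallyPseudocompact X))
    (hφ : ∃ φ : WeakSelection X, φ.IsCont) (hK : IsKingSpace X) : CompactSpace X := by
  obtain ⟨φ, hφ⟩ := hφ
  have h := WeakSelection.tour hφ
  rcases hX with hX | ⟨hX, hX'⟩
  · refine hK.kingP.compactSpace h fun x => ?_
    obtain ⟨M, hM, hMx⟩ := exists_compact_mem_nhds x
    refine ⟨M, hMx, hM.isClosed, fun u hu => ?_⟩
    obtain ⟨a, ha, ha'⟩ := hM.exists_mapClusterPt_of_frequently (l := atTop) (f := u)
      (Eventually.of_forall hu).frequently
    exact ⟨a, ha, ha'⟩
  · have : T35Space X := {}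
    exact hK.kingP.compactSpace h (hX'.locSeqCl h)

end Pool.Agent.Results.MP_abcfaf_gt.LocPseudo
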